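import Mathlib
import Pool.Agent.Helper18.CuspFinish

/-!
The dimension of a linear system with two points, in all cases; the stages of the cuspidal and of
the nodal cubic have the same dimensions.
-/

set_option autoImplicit false

open Module

noncomputable section

namespace Helper18.Tw

open Helper18.Shgh Helper18.Cusp

theorem TP_lower (P Q : Fin 2 → ℂ) (n : ℤ) (hn : -2 ≤ n) (a b : ℕ) :
    (n + 1) * (n + 2) - (a : ℤ) * (a + 1) - (b : ℤ) * (b + 1) ≤
      2 * (finrank ℂ (TP n P Q a b) : ℤ) := by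
  let X : Fin 2 → Fin 2 → ℂ := ![P, Q]
  let A : Fin 2 → ℕ := ![a, b]
  let K : Fin 2 → Submodule ℂ R2 := fun i =>
    Submodule.restrictScalars ℂ ((mI (X i) ^ A i : Ideal R2))
  have h1 := finrank_le_inf_iInf (Finset.univ : Finset (Fin 2)) K (fun i => (A i + 1).choose 2) (by
      intro i _ U hU
      have : FiniteDimensional ℂ (U ⊓ K i : Submodule ℂ R2) :=
        Submodule.finiteDimensional_of_le inf_le_left
      have h2 := finrank_le_add (U ⊓ K i) U (tayL (A i) (X i)) (by
          intro x hx h0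
          refine Submodule.mem_inf.2 ⟨hx, ?_⟩
          exact mem_of_tayL h0)
      rw [finrank_fintype_fun_eq_card, card_Tri] at h2
      exact h2) (V n)
  have h2 : V n ⊓ ⨅ i ∈ (Finset.univ : Finset (Fin 2)), K i ≤ TP n P Q a b := by
    intro F hF
    obtain ⟨h3, h4⟩ := Submodule.mem_inf.1 hF
    rw [Submodule.mem_iInf] at h4
    have h5 := h4 0
    have h6 := h4 1
    rw [Submodule.mem_iInf] at h5 h6
    exact ⟨h3, h5 (Finset.mem_univ _), h6 (Finset.mem_univ _)⟩
  have h3 := Submodule.finrank_mono h2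
  have h4 := le_finrank_V n hn
  rw [Fin.sum_univ_two] at h1
  have e0 : A 0 = a := rfl
  have e1 : A 1 = b := rfl
  rw [e0, e1] at h1
  have h5 : finrank ℂ (V n) ≤ finrank ℂ (TP n P Q a b) + ((a + 1).choose 2 + (b + 1).choose 2) := by
    omega
  have h6 := two_choose_nat a
  have h7 := two_choose_nat b
  zify at h5 h6 h7
  linarith

/-- beyond the line the line is fixed -/
theorem TP_line {P Q : Fin 2 → ℂ} (hPQ : P 0 ≠ Q 0) {n a b : ℕ} (h : n + 1 < a + b) :
    finrank ℂ (TP n P Q a b) = finrank ℂ (TP ((n : ℤ) - 1) P Q (a - 1) (b - 1)) := by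
  obtain ⟨α, β, hP, hQ⟩ : ∃ α β : ℂ, P 1 = α * P 0 + β ∧ Q 1 = α * Q 0 + β := by
    have h1 : Q 0 - P 0 ≠ 0 := sub_ne_zero.2 (Ne.symm hPQ)
    refine ⟨(Q 1 - P 1) / (Q 0 - P 0), P 1 - (Q 1 - P 1) / (Q 0 - P 0) * P 0, by ring, ?_⟩
    field_simp
    ring
  have hPm : ll α β ∈ mI P := by
    rw [mem_mI_iff, ll]
    simp only [map_sub, map_add, map_mul, MvPolynomial.eval_X, MvPolynomial.eval_C]
    rw [hP]; ring
  have hQm : ll α β ∈ mI Q := by
    rw [mem_mI_iff, ll]
    simp only [map_sub, map_add, map_mul, MvPolynomial.eval_X, MvPolynomial.eval_C]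
    rw [hQ]; ring
  have hlam : ∀ F ∈ TP n P Q a b, lam α β F = 0 := by
    intro F hF
    rw [mem_TP] at hF
    obtain ⟨hF1, hF2, hF3⟩ := hF
    set M : Polynomial ℂ := (Polynomial.X - Polynomial.C (P 0)) ^ a *
      (Polynomial.X - Polynomial.C (Q 0)) ^ b with hMdef
    have hM : M.Monic :=
      ((Polynomial.monic_X_sub_C _).pow _).mul ((Polynomial.monic_X_sub_C _).pow _)
    have hMdeg : M.natDegree = a + b := by
      rw [hMdef, Polynomial.Monic.natDegree_mul ((Polynomial.monic_X_sub_C _).pow _)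
        ((Polynomial.monic_X_sub_C _).pow _), Polynomial.natDegree_pow, Polynomial.natDegree_pow,
        Polynomial.natDegree_X_sub_C, Polynomial.natDegree_X_sub_C, mul_one, mul_one]
    have hd : M ∣ lam α β F := by
      apply IsCoprime.mul_dvd _ (lam_dvd hP hF2) (lam_dvd hQ hF3)
      apply IsCoprime.pow
      apply Polynomial.isCoprime_X_sub_C_of_isUnit_sub
      exact (sub_ne_zero.2 hPQ).isUnit
    obtain ⟨g, hg⟩ := hd
    by_cases hg0 : g = 0
    · rw [hg, hg0, mul_zero]
    · exfalso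
      have h2 := lam_degree (a := α) (b := β) hF1
      rw [hg, hM.natDegree_mul' hg0, hMdeg] at h2
      omega
  have hmap : TP n P Q a b = (TP ((n : ℤ) - 1) P Q (a - 1) (b - 1)).map
      (LinearMap.mulLeft ℂ (ll α β)) := by
    apply le_antisymm
    · intro F hF
      have h0 := hlam F hF
      rw [mem_TP] at hF
      obtain ⟨hF1, hF2, hF3⟩ := hF
      obtain ⟨G, hG⟩ := exists_of_lam_eq_zero h0
      refine ⟨G, ?_, hG.symm⟩
      rw [hG] at hF1 hF2 hF3
      rw [SetLike.mem_coe, mem_TP]
      refine ⟨ll_mul_mem_V.1 hF1, ?_, ?_⟩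
      · exact mem_of_pow_mul_mem (ll_notMem α β P) 1 (by rw [pow_one (ll α β)]; exact hF2)
      · exact mem_of_pow_mul_mem (ll_notMem α β Q) 1 (by rw [pow_one (ll α β)]; exact hF3)
    · rintro _ ⟨G, hG, rfl⟩
      rw [SetLike.mem_coe, mem_TP] at hG
      obtain ⟨h1, h2, h3⟩ := hG
      rw [mem_TP]
      change ll α β * G ∈ V n ∧ ll α β * G ∈ mI P ^ a ∧ ll α β * G ∈ mI Q ^ b
      refine ⟨ll_mul_mem_V.2 h1, ?_, ?_⟩
      · have h5 : ll α β ∈ mI P ^ 1 := by rw [pow_one]; exact hPm
        have h4 := mul_mem_mI_pow h5 h2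
        exact Ideal.pow_le_pow_right (by omega) h4
      · have h5 : ll α β ∈ mI Q ^ 1 := by rw [pow_one]; exact hQm
        have h4 := mul_mem_mI_pow h5 h3
        exact Ideal.pow_le_pow_right (by omega) h4
  rw [hmap, finrank_map_inj]
  intro x y hxy
  exact mul_left_cancel₀ (ll_ne_zero α β) hxy

/-- few conditions -/
theorem TP_eq_one {P Q : Fin 2 → ℂ} (hPQ : P 0 ≠ Q 0) {n : ℤ} (hn : -2 ≤ n) {a b : ℕ}
    (h : (a : ℤ) + b ≤ n + 1 ∨ (a = 0 ∧ b = 0)) :
    2 * (finrank ℂ (TP n P Q a b) : ℤ) = (n + 1) * (n + 2) - (a : ℤ) * (a + 1) -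
      (b : ℤ) * (b + 1) := by
  have h1 := finrank_TP' hPQ n hn a b h
  have h2 := TP_lower P Q n hn a b
  linarith

/-- many conditions -/
theorem TP_eq_two {P Q : Fin 2 → ℂ} (hPQ : P 0 ≠ Q 0) : ∀ (n a b : ℕ), n + 1 ≤ a + b →
    finrank ℂ (TP n P Q a b) = (n + 1 - a) * (n + 1 - b) := by
  intro n
  induction n with
  | zero =>
    intro a b h
    rcases Nat.lt_or_ge (0 + 1) (a + b) with h1 | h1
    · have hle : TP ((0 : ℕ) : ℤ) P Q a b ≤ ⊥ := by
        intro F hF
        rw [mem_TP] at hF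
        obtain ⟨hF1, hF2, hF3⟩ := hF
        have hc : ∃ c : ℂ, F = MvPolynomial.C c := by
          rw [mem_V] at hF1
          rcases hF1 with rfl | hF1
          · exact ⟨0, by simp⟩
          · have h4 : F.totalDegree = 0 := by omega
            exact ⟨_, MvPolynomial.totalDegree_eq_zero_iff_eq_C.1 h4⟩
        obtain ⟨c, rfl⟩ := hc
        have key : MvPolynomial.C c = (0 : R2) := by
          rcases Nat.eq_zero_or_pos a with ha | ha
          · have h2 : (MvPolynomial.C c : R2) ∈ mI Q := Ideal.pow_le_self (by omega) hF3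
            rw [mem_mI_iff, MvPolynomial.eval_C] at h2
            rw [h2]; simp
          · have h2 : (MvPolynomial.C c : R2) ∈ mI P := Ideal.pow_le_self (by omega) hF2
            rw [mem_mI_iff, MvPolynomial.eval_C] at h2
            rw [h2]; simp
        rw [key]
        exact Submodule.zero_mem _
      have hb : finrank ℂ (TP ((0 : ℕ) : ℤ) P Q a b) = 0 := by
        rw [(Submodule.eq_bot_iff _).2 (fun x hx => (Submodule.mem_bot ℂ).1 (hle hx)), finrank_bot]
      rw [hb]
      rcases Nat.eq_zero_or_pos a with ha | ha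
      · rw [show 0 + 1 - b = 0 by omega, mul_zero]
      · rw [show 0 + 1 - a = 0 by omega, zero_mul]
    · have h2 := TP_eq_one hPQ (n := ((0 : ℕ) : ℤ)) (by norm_num) (a := a) (b := b)
        (Or.inl (by push_cast; omega))
      rcases Nat.eq_zero_or_pos a with ha | ha
      · have hb : b = 1 := by omega
        subst ha hb
        generalize finrank ℂ (TP ((0 : ℕ) : ℤ) P Q 0 1) = r at h2 ⊢
        push_cast at h2
        have h3 : r = 0 := by omega
        rw [h3]
      · have hb : b = 0 := by omega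
        have ha' : a = 1 := by omega
        subst ha' hb
        generalize finrank ℂ (TP ((0 : ℕ) : ℤ) P Q 1 0) = r at h2 ⊢
        push_cast at h2
        have h3 : r = 0 := by omega
        rw [h3]
  | succ n ih =>
    intro a b h
    rcases Nat.lt_or_ge (n + 1 + 1) (a + b) with h1 | h1
    · rw [TP_line hPQ (n := n + 1) h1]
      have e : ((n + 1 : ℕ) : ℤ) - 1 = (n : ℤ) := by push_cast; ring
      rw [e]
      by_cases h3 : a = 0 ∨ b = 0
      · rcases h3 with rfl | rfl
        · rw [ih 0 (b - 1) (by omega)]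
          rw [show n + 1 - (b - 1) = 0 by omega, show n + 1 + 1 - b = 0 by omega]
          simp
        · rw [ih (a - 1) 0 (by omega)]
          rw [show n + 1 - (a - 1) = 0 by omega, show n + 1 + 1 - a = 0 by omega]
          simp
      · push Not at h3
        rw [ih (a - 1) (b - 1) (by omega)]
        congr 1 <;> omega
    · have hab : a + b = n + 1 + 1 := by omega
      have h2 := TP_eq_one hPQ (n := ((n + 1 : ℕ) : ℤ)) (by push_cast; omega) (a := a) (b := b)
        (Or.inl (by push_cast; omega))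
      rw [show n + 1 + 1 - a = b by omega, show n + 1 + 1 - b = a by omega]
      have hn : (n : ℤ) = a + b - 2 := by omega
      generalize finrank ℂ (TP ((n + 1 : ℕ) : ℤ) P Q a b) = r at h2 ⊢
      push_cast at h2
      rw [hn] at h2
      have h3 : (r : ℤ) = b * a := by nlinarith
      exact_mod_cast h3

end Helper18.Tw
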