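import Mathlib
import Pool.Agent.Helper18.Tw.TwoPt
import Pool.Agent.Helper18.NodDim

/-!
The stages of the nine points: equality of the two cubics, and a lower bound for the columns.
-/

set_option autoImplicit false

open Module

noncomputable section

namespace Helper18.Tw

open Helper18.Shgh Helper18.Cusp
open Helper18.Nod (GoodZ NS NB np NB_eq)

theorem SP_eq_TP {n : ℤ} {P : ℕ → Fin 2 → ℂ} {c : ℕ → ℕ} (h : ∀ i, 2 ≤ i → i < 9 → c i = 0) :
    SP n (Finset.range 9) P c = TP n (P 0) (P 1) (c 0) (c 1) := by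
  ext F
  rw [mem_SP, mem_TP]
  constructor
  · rintro ⟨h1, h2⟩
    exact ⟨h1, h2 0 (by simp), h2 1 (by simp)⟩
  · rintro ⟨h1, h2, h3⟩
    refine ⟨h1, fun i hi => ?_⟩
    rw [Finset.mem_range] at hi
    rcases Nat.lt_or_ge i 2 with hi2 | hi2
    · have : i = 0 ∨ i = 1 := by omega
      rcases this with rfl | rfl
      · exact h2
      · exact h3
    · rw [h i hi2 hi, pow_zero, Ideal.one_eq_top]
      exact Submodule.mem_top

variable {n : ℕ} {a : ℕ → ℕ}

theorem YB_eq_TP {j : ℕ} (h : ∀ i, 2 ≤ i → i < 9 → a i - j = 0) :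
    YB (n : ℤ) a j = TP ((n : ℤ) - 3 * j) (qq 0) (qq 1) (a 0 - j) (a 1 - j) := SP_eq_TP h

theorem NB_eq_TP {z : ℕ → ℂ} {j : ℕ} (h : ∀ i, 2 ≤ i → i < 9 → a i - j = 0) :
    NB z (n : ℤ) a j = TP ((n : ℤ) - 3 * j) (np (z 0)) (np (z 1)) (a 0 - j) (a 1 - j) := SP_eq_TP h

theorem small_of (hR : Red n a) {j : ℕ} (hj : a 2 ≤ j) : ∀ i, 2 ≤ i → i < 9 → a i - j = 0 := by
  intro i hi hi9
  have := hR.ha 2 i hi hi9
  omega

theorem qq01 : qq 0 0 ≠ qq 1 0 := qq_ne (by norm_num)

theorem np01 {z : ℕ → ℂ} (hz : GoodZ z) : np (z 0) 0 ≠ np (z 1) 0 := by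
  intro h
  have h1 : z 0 ^ 2 - 1 = z 1 ^ 2 - 1 := h
  have := hz.2 0 (by norm_num) 1 (by norm_num) (by linear_combination h1)
  omega

theorem finrank_neg {m : ℤ} (hm : m < 0) (P : ℕ → Fin 2 → ℂ) (c : ℕ → ℕ) :
    finrank ℂ (SP m (Finset.range 9) P c) = 0 := by
  have : SP m (Finset.range 9) P c = ⊥ := by
    rw [eq_bot_iff, ← V_neg hm]
    exact fun _ h => h.1
  rw [this, finrank_bot]

/-- the stages have the same dimension on the two cubics -/
theorem NB_YB {z : ℕ → ℂ} (hz : GoodZ z) (hR : Red n a) (j : ℕ) :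
    finrank ℂ (NB z n a j) = finrank ℂ (YB n a j) := by
  rcases Nat.lt_or_ge (a 2) j with hj | hj
  · rcases lt_or_ge ((n : ℤ) - 3 * j) 0 with hn | hn
    · exact (finrank_neg hn _ _).trans (finrank_neg hn _ _).symm
    · obtain ⟨N, hN⟩ : ∃ N : ℕ, (n : ℤ) - 3 * j = N := ⟨((n : ℤ) - 3 * j).toNat, by omega⟩
      rw [NB_eq_TP (small_of hR hj.le), YB_eq_TP (small_of hR hj.le), hN]
      rcases Nat.lt_or_ge (N + 1) ((a 0 - j) + (a 1 - j)) with h1 | h1
      · rw [TP_eq_two (np01 hz) N _ _ h1.le, TP_eq_two qq01 N _ _ h1.le]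
      · have e1 := TP_eq_one (np01 hz) (n := (N : ℤ)) (by omega) (a := a 0 - j) (b := a 1 - j)
          (Or.inl (by exact_mod_cast h1))
        have e2 := TP_eq_one qq01 (n := (N : ℤ)) (by omega) (a := a 0 - j) (b := a 1 - j)
          (Or.inl (by exact_mod_cast h1))
        have e3 : (finrank ℂ (TP (N : ℤ) (np (z 0)) (np (z 1)) (a 0 - j) (a 1 - j)) : ℤ) =
            finrank ℂ (TP (N : ℤ) (qq 0) (qq 1) (a 0 - j) (a 1 - j)) := by linarith
        exact_mod_cast e3
  · have e1 := NB_eq hz hR hj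
    have e2 := YB_eq hR.ha hR.hd hR.hsum (lev_red hR.ha hR.hd) hj
    have e3 : (finrank ℂ (NB z n a j) : ℤ) = finrank ℂ (YB n a j) := by linarith
    exact_mod_cast e3

/-- the columns decrease slowly -/
theorem rr_slow (hR : Red n a) {j : ℕ} (h1 : 2 * j + 1 ≤ n - a 0) (h2 : 3 * j + 1 ≤ n) :
    kap n a ≤ rr n a j + 9 * j := by
  obtain ⟨m1, m2, m3, m4, m5, m6, m7, m8⟩ := hR.chain
  have hd := hR.hd
  have hs := hR.hsum
  have hk : kap n a = 3 * n - ∑ i ∈ Finset.range 9, a i := rfl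
  rw [sum9] at hs hk
  rcases Nat.lt_or_ge j (a 2) with hj | hj
  · have e := rr_lev hR (lev_red hR.ha hR.hd) hj
    rw [sum9z] at e
    omega
  · have hadd := rr_add (n : ℤ) a j
    obtain ⟨N, hN⟩ : ∃ N : ℕ, n = N + 3 * j := ⟨n - 3 * j, by omega⟩
    have hN1 : 1 ≤ N := by omega
    set x := a 0 - j with hx
    set y := a 1 - j with hy
    have eD : finrank ℂ (YB n a j) = finrank ℂ (TP (N : ℤ) (qq 0) (qq 1) x y) := by
      rw [YB_eq_TP (small_of hR hj), show (n : ℤ) - 3 * j = N by omega]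
    have eD' : finrank ℂ (YB n a (j + 1)) =
        finrank ℂ (TP ((N : ℤ) - 3) (qq 0) (qq 1) (x - 1) (y - 1)) := by
      rw [YB_eq_TP (small_of hR (j := j + 1) (by omega)),
        show (n : ℤ) - 3 * ((j + 1 : ℕ) : ℤ) = N - 3 by push_cast; omega,
        show a 0 - (j + 1) = x - 1 by omega, show a 1 - (j + 1) = y - 1 by omega]
    rw [eD, eD'] at hadd
    have hxN : x ≤ N - 1 := by omega
    have hyx : y ≤ x := by omega
    rcases Nat.lt_or_ge N (x + y) with hxy | hxy
    · have e1 := TP_eq_two qq01 N x y hxy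
      have e2 := TP_eq_two qq01 (N - 3) (x - 1) (y - 1) (by omega)
      have e3 : ((N - 3 : ℕ) : ℤ) = (N : ℤ) - 3 := by omega
      rw [e3] at e2
      obtain ⟨p, hp⟩ : ∃ p, N = x + 1 + p := ⟨N - 1 - x, by omega⟩
      obtain ⟨q, hq⟩ : ∃ q, N = y + 1 + q := ⟨N - 1 - y, by omega⟩
      rw [show N + 1 - x = p + 2 by omega, show N + 1 - y = q + 2 by omega] at e1
      rw [show N - 3 + 1 - (x - 1) = p by omega, show N - 3 + 1 - (y - 1) = q by omega] at e2
      rw [e1, e2] at hadd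
      have e4 : rr n a j = 2 * (p + q) + 4 := by
        have : (p + 2) * (q + 2) = p * q + (2 * (p + q) + 4) := by ring
        omega
      omega
    · have e1 := TP_eq_one qq01 (n := (N : ℤ)) (by omega) (a := x) (b := y)
        (Or.inl (by have : ((x + y : ℕ) : ℤ) ≤ N := by exact_mod_cast hxy
                    push_cast at this; linarith))
      have e2 := TP_eq_one qq01 (n := (N : ℤ) - 3) (by omega) (a := x - 1) (b := y - 1) (by
        rcases Nat.eq_zero_or_pos x with h0 | h0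
        · right; omega
        · left
          rcases Nat.eq_zero_or_pos y with h3 | h3
          · omega
          · omega)
      have k1 : ∀ c : ℕ, (c : ℤ) * (c + 1) = ((c - 1 : ℕ) : ℤ) * (((c - 1 : ℕ) : ℤ) + 1) + 2 * c := by
        intro c
        have := tri_key c
        exact_mod_cast this
      rw [k1 x, k1 y] at e1
      have e3 : (rr n a j : ℤ) + finrank ℂ (TP ((N : ℤ) - 3) (qq 0) (qq 1) (x - 1) (y - 1)) =
          finrank ℂ (TP (N : ℤ) (qq 0) (qq 1) x y) := by exact_mod_cast hadd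
      have e4 : (rr n a j : ℤ) = 3 * N - x - y := by linarith
      omega

end Helper18.Tw
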