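import Mathlib
import Pool.Agent.Lead.RwMain

/-!
Regions with a wall and strictly decreasing columns, seen along the lines `2 y + b = c`.
-/

set_option autoImplicit false

namespace Helper18.Tw

open Finset
open Pool.Agent.Lead.Rw (lam rowS rowc mem_rowS)

/-- heights: a wall of height `κ` and width `w`, then strictly decreasing -/
structure Hgt (f : ℕ → ℕ) (w κ : ℕ) : Prop where
  wall : ∀ b < w, f b = κ
  le : ∀ b, f b ≤ κ
  strict : ∀ b, w ≤ b → 0 < f (b + 1) → f (b + 1) < f b

variable {f : ℕ → ℕ} {w κ : ℕ}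

theorem Hgt.far (h : Hgt f w κ) {b : ℕ} (hb : w ≤ b) (t : ℕ) (h0 : 0 < f (b + t)) :
    f (b + t) + t ≤ f b := by
  induction t with
  | zero => exact le_rfl
  | succ t ih =>
    have e : b + (t + 1) = b + t + 1 := by omega
    rw [e] at h0 ⊢
    have h1 := h.strict (b + t) (by omega) h0
    have h2 := ih (by omega)
    omega

theorem Hgt.top (h : Hgt f w κ) {b : ℕ} (h0 : 0 < f b) : b + 2 * f b ≤ w + 2 * κ := by
  rcases Nat.lt_or_ge b w with hb | hb
  · rw [h.wall b hb]; omega
  · obtain ⟨t, rfl⟩ := Nat.exists_eq_add_of_le hb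
    have h1 := h.far le_rfl t h0
    have h2 := h.le w
    omega

variable {D : Finset (ℕ × ℕ)}

theorem lam21 (d : ℕ × ℕ) : lam 2 1 d = 2 * d.1 + d.2 := by
  unfold lam; omega

theorem row_top (h : Hgt f w κ) (hD : ∀ d, d ∈ D ↔ d.1 < f d.2) {c : ℕ} (hc : w + 2 * κ ≤ c) :
    rowc 2 1 D c = 0 := by
  unfold rowc
  rw [card_eq_zero, eq_empty_iff_forall_notMem]
  intro d hd
  rw [mem_rowS, hD, lam21] at hd
  have := h.top (b := d.2) (by omega)
  omega

/-- the rows shrink by at most one -/
theorem row_drop (h : Hgt f w κ) (hD : ∀ d, d ∈ D ↔ d.1 < f d.2) (c : ℕ) :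
    rowc 2 1 D c ≤ rowc 2 1 D (c + 1) + 1 := by
  classical
  rcases (rowS 2 1 D c).eq_empty_or_nonempty with he | he
  · unfold rowc
    rw [he, card_empty]
    omega
  · obtain ⟨e, heM, hemax⟩ := exists_max_image (rowS 2 1 D c) (fun d => d.2) he
    have hsub : ((rowS 2 1 D c).erase e).image (fun d : ℕ × ℕ => (d.1, d.2 + 1)) ⊆
        rowS 2 1 D (c + 1) := by
      intro x hx
      rw [mem_image] at hx
      obtain ⟨d, hd, rfl⟩ := hx
      rw [mem_erase] at hd
      obtain ⟨hne, hd⟩ := hd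
      have hmax := hemax d hd
      rw [mem_rowS, hD, lam21] at hd heM
      obtain ⟨hd1, hd2⟩ := hd
      obtain ⟨he1, he2⟩ := heM
      have hlt : d.2 < e.2 := by
        rcases Nat.lt_or_ge d.2 e.2 with h3 | h3
        · exact h3
        · exfalso
          apply hne
          have h4 : d.2 = e.2 := le_antisymm hmax h3
          exact Prod.ext (by omega) h4
      rw [mem_rowS, hD, lam21]
      refine ⟨?_, by simp only; omega⟩
      simp only
      rcases Nat.lt_or_ge (d.2 + 1) w with h5 | h5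
      · rw [h.wall _ h5]
        exact lt_of_lt_of_le hd1 (h.le _)
      · obtain ⟨t, ht⟩ := Nat.exists_eq_add_of_le (show d.2 + 1 ≤ e.2 by omega)
        have h6 := h.far h5 t (by rw [← ht]; omega)
        rw [← ht] at h6
        omega
    have h1 := card_le_card hsub
    rw [card_image_of_injective _ (by
      intro x y hxy
      have := Prod.ext_iff.1 hxy
      simp only at this
      exact Prod.ext this.1 (by omega)), card_erase_of_mem heM] at h1
    unfold rowc
    omega

/-- many cells in a row -/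
theorem row_ge (hD : ∀ d, d ∈ D ↔ d.1 < f d.2) {T b0 y0 c : ℕ} (hc : c = b0 + 2 * y0)
    (hT : T ≤ y0 + 1) (h : ∀ i < T, y0 - i < f (b0 + 2 * i)) : T ≤ rowc 2 1 D c := by
  classical
  have hsub : (range T).image (fun i => ((y0 - i, b0 + 2 * i) : ℕ × ℕ)) ⊆ rowS 2 1 D c := by
    intro x hx
    rw [mem_image] at hx
    obtain ⟨i, hi, rfl⟩ := hx
    rw [mem_range] at hi
    rw [mem_rowS, hD, lam21]
    simp only
    exact ⟨h i hi, by omega⟩
  have h1 := card_le_card hsub
  rw [card_image_of_injective _ (by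
    intro x y hxy
    have := Prod.ext_iff.1 hxy
    simp only at this
    omega), card_range] at h1
  exact h1

theorem card_rows_sum (B : ℕ) (hB : ∀ c, B ≤ c → rowc 2 1 D c = 0) :
    ∑ c ∈ Ico 0 B, rowc 2 1 D c = D.card := by
  classical
  rw [card_eq_sum_card_fiberwise (f := fun d => lam 2 1 d) (t := Ico 0 B)]
  · rfl
  · intro d hd
    rw [mem_coe, mem_Ico]
    refine ⟨Nat.zero_le _, ?_⟩
    by_contra hcon
    push Not at hcon
    have h1 := hB _ hcon
    unfold rowc at h1
    rw [card_eq_zero, eq_empty_iff_forall_notMem] at h1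
    exact h1 d (mem_rowS.2 ⟨hd, rfl⟩)

/-- the number of thin rows, thick case -/
theorem thin_thick (h : Hgt f w κ) (hD : ∀ d, d ∈ D ↔ d.1 < f d.2) {T : ℕ} (hT : 1 ≤ T)
    (hw : 2 * T ≤ w) (hκ : T ≤ κ) :
    ((Ico 0 (w + 2 * κ)).filter (fun c => rowc 2 1 D c < T)).card + 1 ≤ 4 * T := by
  have hsub : (Ico 0 (w + 2 * κ)).filter (fun c => rowc 2 1 D c < T) ⊆
      Ico 0 (2 * T - 1) ∪ Ico (w + 2 * κ - 2 * T) (w + 2 * κ) := by
    intro c hc
    rw [mem_filter, mem_Ico] at hc
    rw [mem_union, mem_Ico, mem_Ico]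
    by_contra hcon
    push Not at hcon
    obtain ⟨⟨_, hc1⟩, hc2⟩ := hc
    obtain ⟨hcon1, hcon2⟩ := hcon
    have hc3 := hcon1 (Nat.zero_le _)
    have hc4 : c < w + 2 * κ - 2 * T := by
      by_contra h5
      have := hcon2 (by omega)
      omega
    have : T ≤ rowc 2 1 D c := by
      rcases Nat.lt_or_ge c (2 * κ) with h6 | h6
      · apply row_ge hD (b0 := c % 2) (y0 := c / 2) (by omega) (by omega)
        intro i hi
        rw [h.wall _ (by omega)]
        omega
      · apply row_ge hD (b0 := c - 2 * (κ - 1)) (y0 := κ - 1) (by omega) (by omega)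
        intro i hi
        rw [h.wall _ (by omega)]
        omega
    omega
  have h1 := (card_le_card hsub).trans (card_union_le _ _)
  rw [Nat.card_Ico, Nat.card_Ico] at h1
  omega

/-- the number of thin rows, general case -/
theorem thin_slow (hD : ∀ d, d ∈ D ↔ d.1 < f d.2) {T : ℕ} (hT : 1 ≤ T)
    (hw : w < 2 * T) (hs : ∀ b < 2 * T, κ ≤ f b + 9 * b) :
    ((Ico 0 (w + 2 * κ)).filter (fun c => rowc 2 1 D c < T)).card + 2 ≤ 38 * T := by
  have hsub : (Ico 0 (w + 2 * κ)).filter (fun c => rowc 2 1 D c < T) ⊆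
      Ico 0 (2 * T - 1) ∪ Ico (2 * κ - 34 * T) (w + 2 * κ) := by
    intro c hc
    rw [mem_filter, mem_Ico] at hc
    rw [mem_union, mem_Ico, mem_Ico]
    by_contra hcon
    push Not at hcon
    obtain ⟨⟨_, hc1⟩, hc2⟩ := hc
    obtain ⟨hcon1, hcon2⟩ := hcon
    have hc3 := hcon1 (Nat.zero_le _)
    have hc4 : c < 2 * κ - 34 * T := by
      by_contra h5
      have := hcon2 (by omega)
      omega
    have : T ≤ rowc 2 1 D c := by
      apply row_ge hD (b0 := c % 2) (y0 := c / 2) (by omega) (by omega)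
      intro i hi
      have := hs (c % 2 + 2 * i) (by omega)
      omega
    omega
  have h1 := (card_le_card hsub).trans (card_union_le _ _)
  rw [Nat.card_Ico, Nat.card_Ico] at h1
  omega

/-- the number of thin rows, small case -/
theorem thin_small (T : ℕ) : ((Ico 0 (w + 2 * κ)).filter (fun c => rowc 2 1 D c < T)).card ≤
    w + 2 * κ := by
  have := card_le_card (filter_subset (fun c => rowc 2 1 D c < T) (Ico 0 (w + 2 * κ)))
  rw [Nat.card_Ico] at this
  omega

end Helper18.Tw
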