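import Mathlib
import Pool.Agent.Helper18.Tw.Shape
import Pool.Agent.Helper18.CuspThin

/-!
The window theorem on a region with a wall and strictly decreasing columns.
-/

set_option autoImplicit false

namespace Helper18.Tw

open Finset
open Helper18.Cusp (GoodFor)
open Pool.Agent.Lead.Sh (Inj Ind rows mem_rows inj_empty cellR mem_cellR rows_mono)
open Pool.Agent.Lead.Rw (lam rowS rowc mem_rowS Ind' wl Prof)

theorem rows_Ico_eq {m : ℕ → ℕ} {s t : ℕ} (hts : t ≤ s) (h0 : ∀ i, t ≤ i → m i = 0) :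
    rows m (Ico 9 s) = rows m (Ico 9 t) := by
  ext r
  rw [mem_rows, mem_rows, mem_Ico, mem_Ico]
  constructor
  · rintro ⟨h1, h2⟩
    by_cases h3 : r.1 < t
    · exact ⟨⟨h1.1, h3⟩, h2⟩
    · rw [h0 _ (by omega)] at h2; omega
  · rintro ⟨h1, h2⟩; exact ⟨⟨h1.1, by omega⟩, h2⟩

theorem sum_Ico_eq {m : ℕ → ℕ} {s t : ℕ} (hts : t ≤ s) (h0 : ∀ i, t ≤ i → m i = 0) :
    ∑ i ∈ Ico 9 s, Nat.choose (m i + 1) 2 = ∑ i ∈ Ico 9 t, Nat.choose (m i + 1) 2 := by
  symm
  apply sum_subset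
  · intro x hx; rw [mem_Ico] at hx ⊢; omega
  · intro x hx1 hx
    rw [mem_Ico] at hx1 hx
    rw [h0 x (by omega)]; rfl

/-- the points beyond the ninth -/
def cut (m : ℕ → ℕ) (k : ℕ) : ℕ := if k < 9 then 0 else m k

theorem cut_ge {m : ℕ → ℕ} {k : ℕ} (h : 9 ≤ k) : cut m k = m k := by
  unfold cut; rw [if_neg (by omega)]

theorem rows_cut (m : ℕ → ℕ) (t : ℕ) : rows (cut m) (Ico 9 t) = rows m (Ico 9 t) := by
  ext r
  rw [mem_rows, mem_rows, mem_Ico]
  constructor
  · rintro ⟨h1, h2⟩; rw [cut_ge h1.1] at h2; exact ⟨h1, h2⟩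
  · rintro ⟨h1, h2⟩; rw [cut_ge h1.1]; exact ⟨h1, h2⟩

theorem sum_cut (m : ℕ → ℕ) (t : ℕ) : ∑ k ∈ Ico 9 t, (cut m k + 1).choose 2 =
    ∑ k ∈ Ico 9 t, (m k + 1).choose 2 := by
  apply sum_congr rfl
  intro k hk
  rw [mem_Ico] at hk
  rw [cut_ge hk.1]

/-- one more point fills one more cell -/
theorem inj_one_more {D D' : Finset (ℕ × ℕ)} {m : ℕ → ℕ} {t : ℕ} (hsub : D' ⊆ D)
    (hcard : D.card ≤ D'.card + 1) (ht : 9 ≤ t) (hmt : 1 ≤ m t)
    (h : Inj D' (rows m (Ico 9 t))) : Inj D (rows m (Ico 9 (t + 1))) := by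
  have hmono : rows m (Ico 9 t) ⊆ rows m (Ico 9 (t + 1)) := rows_mono (by
    intro x hx; rw [mem_Ico] at hx ⊢; omega)
  rcases Nat.lt_or_ge D'.card D.card with h1 | h1
  · obtain ⟨x, hx, hx'⟩ : ∃ x ∈ D, x ∉ D' := by
      by_contra hcon
      push Not at hcon
      have := card_le_card (show D ⊆ D' from hcon)
      omega
    have hsub2 : D.erase x ⊆ D' := by
      have h2 : D' ⊆ D.erase x := by
        intro y hy
        rw [mem_erase]
        exact ⟨fun h => hx' (h ▸ hy), hsub hy⟩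
      have h3 : (D.erase x).card ≤ D'.card := by
        rw [card_erase_of_mem hx]; omega
      rw [eq_of_subset_of_card_le h2 h3]
    have h2 : Inj (D.erase x) (rows m (Ico 9 t)) := h.mono hsub2 (Subset.refl _)
    have h3 := Pool.Agent.Lead.Rw.Inj.fill1 (k := t) hx h2 (by
      intro r hr
      rw [mem_rows, mem_Ico] at hr
      omega)
    apply h3.mono (Subset.refl _)
    apply union_subset hmono
    intro r hr
    rw [mem_cellR] at hr
    rw [mem_rows, mem_Ico]
    obtain ⟨h4, h5, h6⟩ := hr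
    exact ⟨by omega, by rw [h4]; omega⟩
  · rw [eq_of_subset_of_card_le hsub h1] at h
    exact h.mono (Subset.refl _) hmono

theorem goodFor_win {D D' : Finset (ℕ × ℕ)} {f : ℕ → ℕ} {w κ : ℕ} (h : Hgt f w κ)
    (hD' : ∀ d, d ∈ D' ↔ d.1 < f d.2) (hsub : D' ⊆ D) (hcard : D.card ≤ D'.card + 1)
    {s : ℕ} {m : ℕ → ℕ} (hm : Antitone m) (hs : ∀ i, s ≤ i → m i = 0) (h9 : 2 ≤ m 9) {K : ℕ}
    (hK : ((Ico 0 (w + 2 * κ)).filter (fun c => rowc 2 1 D' c < m 9 * m 9)).card ≤ K)
    (hwin : (((m 9 - 1) * (K + 1) + (m 9 + 1).choose 2 : ℕ) : ℤ) ≤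
      ((univ.filter (fun i : Fin s => m (i : ℕ) = 1)).card : ℤ) +
        |(D.card : ℤ) - ((∑ k ∈ Ico 9 s, (m k + 1).choose 2 : ℕ) : ℤ)|) :
    GoodFor D m (Ico 9 s) := by
  obtain ⟨N, fs, hNf, h1, h0, h2⟩ := Pool.Agent.Lead.Rw.split_mult hm hs
  have hN : 10 ≤ N := by
    by_contra hcon
    rcases Nat.lt_or_ge 9 (N + fs) with h3 | h3
    · have := h1 9 (by omega) h3; omega
    · have := h0 9 h3; omega
  rw [Pool.Agent.Lead.Rw.card_simple hNf h1 h0 h2, sum_Ico_eq hNf h0] at hwin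
  rw [GoodFor, rows_Ico_eq hNf h0, sum_Ico_eq hNf h0]
  set M := m 9 with hM
  have hM1 : 1 ≤ M := by omega
  have hcutM : ∀ k, cut m k ≤ M := by
    intro k
    unfold cut
    split_ifs with hk
    · omega
    · exact hm (by omega)
  have h1' : ∀ i, N ≤ i → i < N + fs → cut m i = 1 := by
    intro i hi1 hi2
    rw [cut_ge (by omega)]
    exact h1 i hi1 hi2
  have hSN : ∑ i ∈ Ico 9 (N + fs), Nat.choose (m i + 1) 2 =
      ∑ i ∈ Ico 9 N, Nat.choose (m i + 1) 2 + fs :=
    Pool.Agent.Lead.Rw.sum_simple (by omega) h1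
  set L : ℕ → ℕ := rowc 2 1 D' with hL
  have hLd : ∀ c, L c ≤ L (c + 1) + 1 := row_drop h hD'
  have hLB : ∀ c, w + 2 * κ ≤ c → L c = 0 := fun c hc => row_top h hD' hc
  have hLsum : ∑ c ∈ Ico 0 (w + 2 * κ), L c = D'.card := card_rows_sum _ hLB
  have hwl : ∑ c ∈ Ico 0 (w + 2 * κ), wl M L c ≤ (M - 1) * K :=
    Pool.Agent.Lead.Rw.sum_wl_le hK
  have hrowL : ∀ j, rowc 2 1 D' (0 + j) = L (0 + j) - (fun _ => 0 : ℕ → ℕ) j := by
    intro j; rfl
  have hlow : ∀ x ∈ D', 0 ≤ lam 2 1 x := fun _ _ => Nat.zero_le _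
  have hcc : D'.card ≤ D.card := card_le_card hsub
  set S := ∑ i ∈ Ico 9 N, Nat.choose (m i + 1) 2 with hS
  have e1 : (M - 1) * (K + 1) = (M - 1) * K + (M - 1) := by ring
  rw [hSN, e1] at hwin
  rw [hSN]
  constructor
  · intro hc
    have habs : |(D.card : ℤ) - ((S + fs : ℕ) : ℤ)| = ((S + fs : ℕ) : ℤ) - D.card := by
      rw [abs_sub_comm]
      apply abs_of_nonneg
      have : (D.card : ℤ) ≤ ((S + fs : ℕ) : ℤ) := by exact_mod_cast hc
      linarith
    rw [habs] at hwin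
    have hwin' : (M - 1) * K + (M - 1) + (M + 1).choose 2 + D.card ≤ S + 2 * fs := by
      zify
      push_cast at hwin
      linarith
    rcases Nat.eq_zero_or_pos fs with hf | hf
    · -- no simple points
      subst hf
      obtain ⟨N', rfl⟩ : ∃ N', N = N' + 1 := ⟨N - 1, by omega⟩
      have hlast : m N' ≤ M := hm (by omega)
      have hch : (m N' + 1).choose 2 ≤ (M + 1).choose 2 := Nat.choose_le_choose 2 (by omega)
      have hsplit : S = ∑ i ∈ Ico 9 N', Nat.choose (m i + 1) 2 + (m N' + 1).choose 2 := by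
        rw [hS, sum_Ico_succ_top (by omega)]
      have hg := Pool.Agent.Lead.Rw.game_mix (p := 2) (q := 1) (m := cut m) le_rfl hM1 hcutM hLd
        hLB N' _ 9 0 D' (fun _ => 0) 0 le_rfl (by omega) hlow hrowL (Prof.zero M) (Nat.zero_le _)
        (by intro i hi1 hi2; omega)
        (by rw [hLsum, sum_cut]; simp only [sum_const_zero, add_zero]; omega)
        (by rw [hLsum, sum_cut]; simp only [sum_const_zero, add_zero]; omega)
      rw [rows_cut, add_zero] at hg
      rw [add_zero]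
      exact inj_one_more hsub hcard (by omega) (by have := h2 N' (by omega); omega) hg
    · have hchp : 1 ≤ (M + 1).choose 2 := Nat.choose_pos (by omega)
      rcases Nat.lt_or_ge D'.card D.card with hlt | hge
      · obtain ⟨g, rfl⟩ : ∃ g, fs = g + 1 := ⟨fs - 1, by omega⟩
        have hg := Pool.Agent.Lead.Rw.game_mix (p := 2) (q := 1) (m := cut m) le_rfl hM1 hcutM hLd
          hLB N _ 9 0 D' (fun _ => 0) g le_rfl (by omega) hlow hrowL (Prof.zero M) (Nat.zero_le _)
          (by intro i hi1 hi2; exact h1' i hi1 (by omega))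
          (by rw [hLsum, sum_cut]; simp only [sum_const_zero, add_zero]; omega)
          (by rw [hLsum, sum_cut]; simp only [sum_const_zero, add_zero]; omega)
        rw [rows_cut] at hg
        rw [← add_assoc]
        exact inj_one_more hsub hcard (by omega) (by rw [h1 (N + g) (by omega) (by omega)]) hg
      · have hg := Pool.Agent.Lead.Rw.game_mix (p := 2) (q := 1) (m := cut m) le_rfl hM1 hcutM hLd
          hLB N _ 9 0 D' (fun _ => 0) fs le_rfl (by omega) hlow hrowL (Prof.zero M) (Nat.zero_le _)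
          h1'
          (by rw [hLsum, sum_cut]; simp only [sum_const_zero, add_zero]; omega)
          (by rw [hLsum, sum_cut]; simp only [sum_const_zero, add_zero]; omega)
        rw [rows_cut, eq_of_subset_of_card_le hsub hge] at hg
        exact hg
  · intro hc
    have habs : |(D.card : ℤ) - ((S + fs : ℕ) : ℤ)| = D.card - ((S + fs : ℕ) : ℤ) := by
      apply abs_of_nonneg
      have : ((S + fs : ℕ) : ℤ) ≤ D.card := by exact_mod_cast hc
      linarith
    rw [habs] at hwin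
    have hwin' : (M - 1) * K + (M - 1) + (M + 1).choose 2 + S ≤ D.card := by
      zify
      push_cast at hwin
      linarith
    have hchp : 1 ≤ (M + 1).choose 2 := Nat.choose_pos (by omega)
    have hi : Ind' D' (rows (cut m) (Ico 9 N)) := by
      apply Pool.Agent.Lead.Rw.game_ind (p := 2) (q := 1) le_rfl hM1 hcutM hLd hLB N _ 9 0 D'
        (fun _ => 0) le_rfl hlow hrowL (Prof.zero M) (Nat.zero_le _)
      rw [hLsum, sum_cut]
      simp only [sum_const_zero, add_zero]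
      omega
    have hi2 := (Pool.Agent.Lead.Rw.ind'_ext (by omega : 9 ≤ N) h1' (hi.mono hsub)).1 (by
      rw [Pool.Agent.Lead.Sh.card_rows, sum_cut, hSN]
      exact hc)
    rw [rows_cut] at hi2
    exact hi2.ind

end Helper18.Tw
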