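import Mathlib
import Pool.Agent.Helper18.Tw.Win
import Pool.Agent.Helper18.Tw.Stage
import Pool.Agent.Helper18.SlabMain

/-!
The window theorem with the nine largest multiplicities on the cubic.
-/

set_option autoImplicit false

open Module

noncomputable section

namespace Helper18.Tw

open Helper18.Shgh Helper18.Cusp Helper18.Slab
open Pool.Agent.Lead.Sh (Inj Ind rows mem_rows)
open Pool.Agent.Lead.Rw (rowc)

variable {n : ℕ} {a : ℕ → ℕ}

/-- the columns without the last cell of an exceptional system -/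
def fr (n : ℕ) (a : ℕ → ℕ) (b : ℕ) : ℕ := if n = 3 * b then 0 else rr n a b

theorem fr_hgt (hR : Red n a) : Hgt (fr n a) (a 8) (kap n a) where
  wall b hb := by
    obtain ⟨m1, m2, m3, m4, m5, m6, m7, m8⟩ := hR.chain
    have hd := hR.hd
    rw [fr, if_neg (by omega)]
    exact rr_wall hR hb
  le b := by
    rw [fr]
    split_ifs
    · exact Nat.zero_le _
    · exact rr_le_kap hR b
  strict b hb h0 := by
    have h1 : n ≠ 3 * (b + 1) := by
      intro h; rw [fr, if_pos h] at h0; exact lt_irrefl _ h0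
    rw [fr, if_neg h1] at h0 ⊢
    have h2 : n ≠ 3 * b := by
      intro h
      rw [rr_zero (by omega)] at h0
      exact lt_irrefl _ h0
    rw [fr, if_neg h2]
    rcases rr_strict hR hb h0 with h3 | h3
    · exact h3
    · exact absurd h3.1 h1

/-- the region without its last cell -/
def DSr (n : ℕ) (a : ℕ → ℕ) : Finset (ℕ × ℕ) := (DS n a (n + 1)).filter fun x => n ≠ 3 * x.2

theorem mem_DSr (x : ℕ × ℕ) : x ∈ DSr n a ↔ x.1 < fr n a x.2 := by
  rw [DSr, Finset.mem_filter, mem_DS, fr]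
  constructor
  · rintro ⟨⟨_, h1⟩, h2⟩
    rw [if_neg h2]; exact h1
  · intro h
    split_ifs at h with h1
    · omega
    · refine ⟨⟨?_, h⟩, h1⟩
      by_contra hcon
      have := rr_zero (n := n) (a := a) (b := x.2) (by omega)
      omega

theorem card_DSr : (DS n a (n + 1)).card ≤ (DSr n a).card + 1 := by
  have h1 : DS n a (n + 1) ⊆ insert (0, n / 3) (DSr n a) := by
    intro x hx
    rw [Finset.mem_insert]
    by_cases h : n = 3 * x.2
    · left
      rw [mem_DS] at hx
      have := rr_le_one (n := n) (a := a) (b := x.2) h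
      exact Prod.ext (by simp only; omega) (by simp only; omega)
    · right
      rw [DSr, Finset.mem_filter]
      exact ⟨hx, h⟩
  exact (Finset.card_le_card h1).trans (Finset.card_insert_le _ _)

theorem win_arith {M : ℕ} (hM : 2 ≤ M) :
    (M - 1) * (38 * (M * M) - 1) + (M + 1).choose 2 ≤ 40 * (M - 1) * M ^ 2 := by
  obtain ⟨x, rfl⟩ : ∃ x, M = x + 2 := ⟨M - 2, by omega⟩
  have h := two_choose_nat (x + 2)
  rw [show x + 2 - 1 = x + 1 by omega]
  have h2 : (x + 1) * (38 * ((x + 2) * (x + 2)) - 1) ≤ (x + 1) * (38 * ((x + 2) * (x + 2))) :=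
    Nat.mul_le_mul_left _ (Nat.sub_le _ _)
  nlinarith

theorem chi_DS {s : ℕ} {m : ℕ → ℕ} {d : ℕ} (hs : ∀ i, s ≤ i → m i = 0) (hR : Red d (tr m 9)) :
    (((d + 2).choose 2 : ℤ) - ∑ i : Fin s, ((m (i : ℕ) + 1).choose 2 : ℤ)) =
      ((DS d (tr m 9) (d + 1)).card : ℤ) -
        ((∑ k ∈ Finset.Ico 9 s, (m k + 1).choose 2 : ℕ) : ℤ) := by
  have hcard := card_DS' hR (B := d + 1) (by omega)
  have h0 : ∀ i ∈ Finset.range 9, tr m 9 i = m i := fun i hi => tr_lt (Finset.mem_range.1 hi)
  rw [Finset.sum_congr rfl (fun i hi => by rw [h0 i hi])] at hcard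
  have e1 := sum_split9 hs
  have hd1 : 2 * ((d + 2).choose 2 : ℤ) = (d + 1) * (d + 2) := by
    have := two_choose (d + 1)
    push_cast at this ⊢
    linarith
  linarith

theorem main_cubic {s : ℕ} {m : ℕ → ℕ} {d : ℕ} (hm : Antitone m) (hs : ∀ i, s ≤ i → m i = 0)
    (hd : m 0 + m 1 + m 2 ≤ d) (hlt : ∑ i ∈ Finset.range 9, m i < 3 * d) (h9 : 2 ≤ m 9)
    (h4 : m 0 + 4 * m 9 ^ 2 ≤ d)
    (hcase : m 8 < 2 * m 9 ^ 2 ∨ ∑ i ∈ Finset.range 9, m i + m 9 ^ 2 ≤ 3 * d)
    (hwin : ((40 * (m 9 - 1) * m 9 ^ 2 : ℕ) : ℤ) ≤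
      ((Finset.univ.filter (fun i : Fin s => m (i : ℕ) = 1)).card : ℤ) +
        |((d + 2).choose 2 : ℤ) - ∑ i : Fin s, ((m (i : ℕ) + 1).choose 2 : ℤ)|) :
    Concl s m d := by
  obtain ⟨hsum, hR⟩ := red_tr hm hd (j := 9) (by norm_num) le_rfl hlt
  apply cubic_finish s m d 9 hm hs le_rfl hR
  rw [chi_DS hs hR] at hwin
  set M := m 9 with hM
  have e8 : tr m 9 8 = m 8 := tr_lt (by norm_num)
  have e0 : tr m 9 0 = m 0 := tr_lt (by norm_num)
  have hkap : kap d (tr m 9) = 3 * d - ∑ i ∈ Finset.range 9, m i := by rw [kap, hsum]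
  have hgt := fr_hgt hR
  have hT1 : 1 ≤ M * M := Nat.one_le_iff_ne_zero.2 (by positivity)
  rw [show M ^ 2 = M * M by ring] at h4 hcase
  -- the number of thin rows
  have hK : ((Finset.Ico 0 (tr m 9 8 + 2 * kap d (tr m 9))).filter
      (fun c => rowc 2 1 (DSr d (tr m 9)) c < M * M)).card + 2 ≤ 38 * (M * M) := by
    rcases Nat.lt_or_ge (m 8) (2 * (M * M)) with h8 | h8
    · rcases Nat.lt_or_ge d (6 * (M * M)) with hd6 | hd6
      · have h1 := thin_small (D := DSr d (tr m 9)) (w := tr m 9 8) (κ := kap d (tr m 9)) (M * M)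
        have h2 : 1 ≤ m 8 := le_trans (by omega) (hm (show 8 ≤ 9 by norm_num))
        have h3 : m 8 ≤ ∑ i ∈ Finset.range 9, m i :=
          Finset.single_le_sum (fun _ _ => Nat.zero_le _) (Finset.mem_range.2 (by norm_num))
        omega
      · apply thin_slow mem_DSr hT1 (by omega)
        intro b hb
        have h1 := rr_slow hR (j := b) (by rw [e0]; omega) (by omega)
        rw [fr]
        split_ifs with h2
        · omega
        · exact h1
    · have h1 : M * M ≤ kap d (tr m 9) := by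
        rcases hcase with h2 | h2 <;> omega
      have := thin_thick hgt mem_DSr hT1 (by omega) h1
      omega
  apply goodFor_win hgt mem_DSr (Finset.filter_subset _ _) card_DSr hm hs h9
    (K := 38 * (M * M) - 2) (by rw [← hM]; omega)
  refine le_trans ?_ hwin
  have h5 := win_arith (M := M) h9
  rw [show 38 * (M * M) - 2 + 1 = 38 * (M * M) - 1 by omega]
  exact_mod_cast h5

end Helper18.Tw
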