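import Mathlib
import Pool.Agent.Helper18.Tw.Cubic
import Pool.Agent.Helper43.Nod.Final

/-!
The window theorem along a curve of a Halphen pencil.
-/

set_option autoImplicit false

open Module

noncomputable section

namespace Helper18.Tw

open Helper18.Shgh Helper18.Cusp Helper18.Slab Helper18.Flag
open Helper18.Nod (GoodZ NS NB np NB_eq)
open Pool.Agent.Lead.Sh (Inj Ind rows mem_rows)
open Pool.Agent.Lead.Rw (rowc)

variable {n : ℕ} {a : ℕ → ℕ} {k : ℕ} {z : ℕ → ℂ} {F : R2}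

theorem tele (n : ℕ) (a : ℕ → ℕ) (c : ℕ) : ∀ t, ∑ i ∈ Finset.range t, rr n a (c + i) +
    finrank ℂ (YB n a (c + t)) = finrank ℂ (YB n a c) := by
  intro t
  induction t with
  | zero => simp
  | succ t ih =>
    rw [Finset.sum_range_succ, ← ih]
    have := rr_add (n : ℤ) a (c + t)
    rw [← add_assoc c t 1]
    omega

theorem rk_eq (hP : Pencil k z F) (hk : 1 ≤ k) (hR : Red n a) (b : ℕ) :
    rk (Uk k z n a) b = ∑ i ∈ Finset.range k, rr n a (k * b + i) := by
  have h1 := rk_add (stages hP hk n a) hP.irr.ne_zero b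
  have h2 : finrank ℂ (Uk k z n a b) = finrank ℂ (YB n a (k * b)) := NB_YB hP.good hR _
  have h3 : finrank ℂ (Uk k z n a (b + 1)) = finrank ℂ (YB n a (k * (b + 1))) :=
    NB_YB hP.good hR _
  have h4 := tele n a (k * b) k
  rw [show k * b + k = k * (b + 1) by ring] at h4
  omega

theorem rk_hgt (hP : Pencil k z F) (hk : 2 ≤ k) (hR : Red n a) :
    Hgt (rk (Uk k z n a)) (a 8 / k) (k * kap n a) where
  wall b hb := by
    have h1 : k * (b + 1) ≤ a 8 :=
      le_trans (Nat.mul_le_mul_left _ hb) (Nat.mul_div_le _ _)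
    rw [rk_eq hP (by omega) hR, Finset.sum_congr rfl (g := fun _ => kap n a)]
    · rw [Finset.sum_const, Finset.card_range, smul_eq_mul]
    · intro i hi
      rw [Finset.mem_range] at hi
      apply rr_wall hR
      rw [mul_add, mul_one] at h1
      omega
  le b := by
    rw [rk_eq hP (by omega) hR]
    calc ∑ i ∈ Finset.range k, rr n a (k * b + i) ≤ ∑ i ∈ Finset.range k, kap n a :=
          Finset.sum_le_sum fun i _ => rr_le_kap hR _
      _ = k * kap n a := by rw [Finset.sum_const, Finset.card_range, smul_eq_mul]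
  strict b hb h0 := by
    rw [rk_eq hP (by omega) hR] at h0 ⊢
    rw [rk_eq hP (by omega) hR]
    have hanti := rr_antitone hR
    set c := k * b with hc
    have hcc : k * (b + 1) = c + k := by rw [hc]; ring
    rw [hcc] at h0 ⊢
    have ha8 : a 8 < c + k := by
      have h1 := Nat.lt_div_mul_add (a := a 8) (b := k) (by omega)
      have h2 : a 8 / k * k ≤ b * k := Nat.mul_le_mul_right _ hb
      rw [hc, mul_comm k b]
      omega
    have hpos : 0 < rr n a (c + k) := by
      by_contra hcon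
      have : ∑ i ∈ Finset.range k, rr n a (c + k + i) = 0 := by
        apply Finset.sum_eq_zero
        intro i _
        have := hanti (show c + k ≤ c + k + i by omega)
        omega
      omega
    apply Finset.sum_lt_sum
    · intro i _
      exact hanti (by omega)
    · refine ⟨k - 1, Finset.mem_range.2 (by omega), ?_⟩
      rcases Nat.eq_zero_or_pos (rr n a (c + k + (k - 1))) with h1 | h1
      · rw [h1]
        exact lt_of_lt_of_le hpos (hanti (by omega))
      · have h2 : 0 < rr n a (c + (k - 1) + 1) := by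
          exact lt_of_lt_of_le h1 (hanti (by omega))
        rcases rr_strict hR (b := c + (k - 1)) (by omega) h2 with h3 | h3
        · exact lt_of_le_of_lt (hanti (by omega)) h3
        · exfalso
          have := rr_zero (n := n) (a := a) (b := c + k + (k - 1)) (by omega)
          omega

theorem mem_DR' (hP : Pencil k z F) (hk : 1 ≤ k) (hR : Red n a) (x : ℕ × ℕ) :
    x ∈ DR (Uk k z n a) (n + 1) ↔ x.1 < rk (Uk k z n a) x.2 := by
  rw [mem_DR]
  refine ⟨fun h => h.2, fun h => ⟨?_, h⟩⟩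
  by_contra hcon
  push Not at hcon
  rw [rk_eq hP hk hR] at h
  have : ∑ i ∈ Finset.range k, rr n a (k * x.2 + i) = 0 := by
    apply Finset.sum_eq_zero
    intro i _
    apply rr_zero
    have : 1 * (n + 1) ≤ k * x.2 := Nat.mul_le_mul hk hcon
    omega
  omega

/-- from a region of a pencil to general points -/
theorem slab_finish {s : ℕ} {m : ℕ → ℕ} {d : ℕ} (hm : Antitone m) (hs : ∀ i, s ≤ i → m i = 0)
    (hk : 1 ≤ k) (hP : Pencil k z F) (hR : Red d m)
    (hG : GoodFor (DR (Uk k z d m) (d + 1)) m (Finset.Ico 9 s)) :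
    Concl s m d := by
  have hS' := stages hP hk d m
  have hF0 := hP.irr.ne_zero
  have hU0 : Uk k z d m 0 = SP (d : ℤ) (Finset.range 9) (fun i => np (z i)) m := by
    rw [Uk, mul_zero]
    have e1 : (d : ℤ) - 3 * ((0 : ℕ) : ℤ) = d := by simp
    have e2 : (fun i => m i - 0) = m := by funext i; simp
    rw [NB, e1, e2]
  have hcard := card_DR hS' hF0
  have hfin := finrank_Uk hP hR (b := 0) (by rw [mul_zero]; exact Nat.zero_le _)
  have hd1 : 2 * ((d + 2).choose 2 : ℤ) = (d + 1) * (d + 2) := by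
    have := two_choose (d + 1)
    push_cast at this ⊢
    linarith
  set χ : ℤ := ((d + 2).choose 2 : ℤ) - ∑ i : Fin s, ((m (i : ℕ) + 1).choose 2 : ℤ) with hχ
  have hχ2 : χ = ((DR (Uk k z d m) (d + 1)).card : ℤ) -
      ((∑ k ∈ Finset.Ico 9 s, (m k + 1).choose 2 : ℕ) : ℤ) := by
    rw [hcard]
    have e1 := sum_split9 hs
    have e2 : chB (d : ℤ) m 0 = (d + 1) * (d + 2) -
        ∑ i ∈ Finset.range 9, (m i : ℤ) * ((m i : ℤ) + 1) := by
      rw [chB]
      simp
    rw [e2] at hfin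
    push_cast at hfin ⊢
    push_cast at e1
    linarith
  rcases le_total ((DR (Uk k z d m) (d + 1)).card) (∑ k ∈ Finset.Ico 9 s, (m k + 1).choose 2)
    with h | h
  · obtain ⟨P, hPP⟩ := transfer_inj hS' hP.irr hP.ndy (hG.1 h)
    apply finish9 hm hs (fun i => np (z i)) P
    rw [← hU0, hPP, finrank_bot]
    exact le_max_right _ _
  · obtain ⟨P, hPP⟩ := transfer_ind hS' hP.irr hP.ndy (hG.2 h)
    apply finish9 hm hs (fun i => np (z i)) P
    rw [← hU0]
    rw [Pool.Agent.Lead.Sh.card_rows, ← hcard] at hPP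
    apply le_max_of_le_left
    rw [← hχ, hχ2]
    have : (finrank ℂ (KU (Uk k z d m 0) m (Finset.Ico 9 s) P) : ℤ) +
        ((∑ k ∈ Finset.Ico 9 s, (m k + 1).choose 2 : ℕ) : ℤ) ≤
        (DR (Uk k z d m) (d + 1)).card := by exact_mod_cast hPP
    linarith

theorem chi_DR {s : ℕ} {m : ℕ → ℕ} {d : ℕ} (hs : ∀ i, s ≤ i → m i = 0) (hk : 1 ≤ k)
    (hP : Pencil k z F) (hR : Red d m) :
    (((d + 2).choose 2 : ℤ) - ∑ i : Fin s, ((m (i : ℕ) + 1).choose 2 : ℤ)) =
      ((DR (Uk k z d m) (d + 1)).card : ℤ) -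
        ((∑ k ∈ Finset.Ico 9 s, (m k + 1).choose 2 : ℕ) : ℤ) := by
  have hcard := card_DR (stages hP hk d m) hP.irr.ne_zero
  have hfin := finrank_Uk hP hR (b := 0) (by rw [mul_zero]; exact Nat.zero_le _)
  have hd1 : 2 * ((d + 2).choose 2 : ℤ) = (d + 1) * (d + 2) := by
    have := two_choose (d + 1)
    push_cast at this ⊢
    linarith
  rw [hcard]
  have e1 := sum_split9 hs
  have e2 : chB (d : ℤ) m 0 = (d + 1) * (d + 2) -
      ∑ i ∈ Finset.range 9, (m i : ℤ) * ((m i : ℤ) + 1) := by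
    rw [chB]
    simp
  rw [e2] at hfin
  push_cast at hfin ⊢
  push_cast at e1
  linarith

theorem main_pen {s : ℕ} {m : ℕ → ℕ} {d : ℕ} (hm : Antitone m) (hs : ∀ i, s ≤ i → m i = 0)
    (hd : m 0 + m 1 + m 2 ≤ d) (hlt : ∑ i ∈ Finset.range 9, m i < 3 * d) (h9 : 2 ≤ m 9)
    (hκ : 3 * d < ∑ i ∈ Finset.range 9, m i + m 9 ^ 2)
    (hwin : ((40 * (m 9 - 1) * m 9 ^ 2 : ℕ) : ℤ) ≤
      ((Finset.univ.filter (fun i : Fin s => m (i : ℕ) = 1)).card : ℤ) +
        |((d + 2).choose 2 : ℤ) - ∑ i : Fin s, ((m (i : ℕ) + 1).choose 2 : ℤ)|) :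
    Concl s m d := by
  have hR : Red d m := ⟨fun i j hij _ => hm hij, hd, hlt⟩
  have hkap : kap d m = 3 * d - ∑ i ∈ Finset.range 9, m i := rfl
  have hkpos := hR.kap_pos
  have hT1 : 1 ≤ m 9 * m 9 := Nat.one_le_iff_ne_zero.2 (by positivity)
  rw [show m 9 ^ 2 = m 9 * m 9 by ring] at hκ
  obtain ⟨κ, hκdef⟩ : ∃ κ, kap d m = κ := ⟨_, rfl⟩
  rw [hκdef] at hkap hkpos
  have hκT : κ < m 9 * m 9 := by omega
  -- the index of the pencil
  obtain ⟨k, hk1, hk2⟩ : ∃ k, m 9 * m 9 ≤ k * κ ∧ k * κ < 2 * (m 9 * m 9) := by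
    refine ⟨(m 9 * m 9) / κ + 1, ?_, ?_⟩
    · have := Nat.lt_div_mul_add (a := m 9 * m 9) hkpos
      rw [add_mul, one_mul]
      exact this.le
    · have := Nat.div_mul_le_self (m 9 * m 9) κ
      rw [add_mul, one_mul]
      omega
  have hk : 2 ≤ k := by
    by_contra hcon
    have : k * κ ≤ 1 * κ := Nat.mul_le_mul_right _ (by omega)
    omega
  obtain ⟨z, F, hPD, -⟩ := Pool.Agent.Helper43.Nod.hex k (by omega)
  have hP := hPD.pencil hk
  apply slab_finish hm hs (by omega) hP hR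
  rw [chi_DR hs (by omega) hP hR] at hwin
  have hgt := rk_hgt hP hk hR
  rw [hκdef] at hgt
  have hK : ((Finset.Ico 0 (m 8 / k + 2 * (k * κ))).filter
      (fun c => rowc 2 1 (DR (Uk k z d m) (d + 1)) c < m 9 * m 9)).card + 2 ≤
        38 * (m 9 * m 9) := by
    rcases Nat.lt_or_ge (m 8 / k) (2 * (m 9 * m 9)) with h8 | h8
    · have h1 := thin_small (D := DR (Uk k z d m) (d + 1)) (w := m 8 / k) (κ := k * κ) (m 9 * m 9)
      omega
    · have := thin_thick hgt (mem_DR' hP (by omega) hR) hT1 h8 hk1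
      omega
  apply goodFor_win hgt (mem_DR' hP (by omega) hR) (Finset.Subset.refl _) (Nat.le_succ _) hm hs h9
    (K := 38 * (m 9 * m 9) - 2) (by omega)
  refine le_trans ?_ hwin
  have h5 := win_arith (M := m 9) h9
  rw [show 38 * (m 9 * m 9) - 2 + 1 = 38 * (m 9 * m 9) - 1 by omega]
  exact_mod_cast h5

/-- simple points -/
theorem goodFor_simple {s : ℕ} {m : ℕ → ℕ} (hm : Antitone m) (hs : ∀ i, s ≤ i → m i = 0)
    (h9 : m 9 ≤ 1) (D : Finset (ℕ × ℕ)) : GoodFor D m (Finset.Ico 9 s) := by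
  obtain ⟨N, f, hNf, h1, h0, h2⟩ := Pool.Agent.Lead.Rw.split_mult hm hs
  have hN : N ≤ 9 := by
    by_contra hcon
    have := h2 9 (by omega)
    omega
  rw [GoodFor, rows_Ico_eq hNf h0, sum_Ico_eq hNf h0]
  rcases Nat.lt_or_ge (N + f) 9 with h3 | h3
  · rw [Finset.Ico_eq_empty (by omega), Finset.sum_empty]
    have hr : rows m ∅ = ∅ := by
      ext r
      rw [mem_rows]
      simp
    rw [hr]
    constructor
    · intro hc
      have : D = ∅ := Finset.card_eq_zero.1 (by omega)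
      rw [this]
      exact Pool.Agent.Lead.Sh.inj_empty _
    · intro _
      exact Pool.Agent.Lead.Sh.ind_empty _
  · obtain ⟨g, hg⟩ := Nat.exists_eq_add_of_le h3
    rw [hg]
    have he : rows m (Finset.Ico 9 9) = ∅ := by
      ext r
      rw [mem_rows]
      simp
    have key := Pool.Agent.Lead.Rw.ind'_ext (m := m) (k0 := 9) (n := 9) (f := g) le_rfl
      (fun i hi1 hi2 => h1 i (by omega) (by omega)) (D := D) (by
        rw [he]; exact Pool.Agent.Lead.Rw.ind'_empty D)
    rw [Pool.Agent.Lead.Sh.card_rows] at key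
    exact ⟨key.2, fun h => (key.1 h).ind⟩

/-- **The window theorem.** -/
theorem main_win {s : ℕ} {m : ℕ → ℕ} {d : ℕ} (hm : Antitone m) (hs : ∀ i, s ≤ i → m i = 0)
    (hd : m 0 + m 1 + m 2 ≤ d) (h4 : m 0 + 4 * m 9 ^ 2 ≤ d)
    (hwin : (40 * ((m 9 : ℤ) - 1) * m 9 ^ 2) ≤
      ((Finset.univ.filter (fun i : Fin s => m (i : ℕ) = 1)).card : ℤ) +
        |((d + 2).choose 2 : ℤ) - ∑ i : Fin s, ((m (i : ℕ) + 1).choose 2 : ℤ)|) :
    Concl s m d := by
  rcases Nat.lt_or_ge (∑ i ∈ Finset.range 9, m i) (3 * d) with hlt | hge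
  · rcases Nat.lt_or_ge (m 9) 2 with h9 | h9
    · obtain ⟨hsum, hR⟩ := red_tr hm hd (j := 9) (by norm_num) le_rfl hlt
      exact cubic_finish s m d 9 hm hs le_rfl hR (goodFor_simple hm hs (by omega) _)
    · have hwin' : ((40 * (m 9 - 1) * m 9 ^ 2 : ℕ) : ℤ) ≤
          ((Finset.univ.filter (fun i : Fin s => m (i : ℕ) = 1)).card : ℤ) +
          |((d + 2).choose 2 : ℤ) - ∑ i : Fin s, ((m (i : ℕ) + 1).choose 2 : ℤ)| := by
        have e : ((m 9 - 1 : ℕ) : ℤ) = (m 9 : ℤ) - 1 := by omega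
        push_cast
        rw [e]
        exact hwin
      rcases Nat.lt_or_ge (3 * d) (∑ i ∈ Finset.range 9, m i + m 9 ^ 2) with h | h
      · exact main_pen hm hs hd hlt h9 h hwin'
      · exact main_cubic hm hs hd hlt h9 h4 (Or.inr h) hwin'
  · obtain ⟨z, F, -, hU⟩ := Pool.Agent.Helper43.Nod.hex (m 8 + 1) (by omega)
    exact main_zero hm hs hd (Nat.lt_succ_self _) hU hge

end Helper18.Tw
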